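import Pool.Agent.J6H78.PK.Asym

/-!
# The mean number of visits can diverge logarithmically: no critical exponent

Q2 asks whether for every transitive, unimodular, infinitely accessible triple there are constants
`γ, C > 0` with `E_p V * (1/2 - p) ^ γ → C` as `p ↑ 1/2`. The answer is no.

The triple: the free group with generators `a, b`, its Cayley graph (the 4-regular tree), the kernel
`K(x, x a) = K(x, x b) = 1/2` and the group acting on itself from the left. For it
`E_p V ≤ 2 - log (1 - 2 p)` for all `p < 1/2`, and `E_p V / log (1 / (1/2 - p)) → 1`.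

Proof: the numbers of cars which reach `x a⁻¹` and `x b⁻¹` are independent, since the cars come from
disjoint subtrees, so the generating function of the number of visits satisfies a recursion in time,
and by induction `E (1 - ε) ^ V_t ≤ exp (- ε E V_t + 2 ε²)`. With `ε = 1` this bounds the probability
of no visit; on the other hand a spot stays free for ever with probability at least `1 - 2 p`.
-/

set_option autoImplicit false

namespace Pool.Agent.Results.MP_971c94_pr.LogarithmicVisits

open Pool.Agent.TH996.Parking Pool.Agent.J6H78.PK Filter Topology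

/-- The property asked for in Q2 for a triple: for some constants `γ, C > 0` (and every vertex `x`)
`E_p V * (1/2 - p) ^ γ` tends to `C` as `p` increases to `1/2`. -/
def HasPowerLaw {V : Type} [MeasurableSpace V] (G : SimpleGraph V) [G.LocallyFinite]
    (K : V → V → ℝ) : Prop :=
  ∃ γ C : ℝ, 0 < γ ∧ 0 < C ∧ ∀ x : V,
    Tendsto (fun p : ℝ => (expectedVisits G K p x).toReal * (1 / 2 - p) ^ γ) (𝓝[<] (1 / 2)) (𝓝 C)

/-- **Negative answer to Q2.** The triple (`cayley`, `ker`, `Lft`) on the free group `F2` satisfies
all hypotheses; for it the mean number of visits is at most `2 - log (1 - 2 p)`, it is asymptotic to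
`log (1 / (1/2 - p))` as `p ↑ 1/2`, and its product with any positive power of `1/2 - p` tends to
zero. So it is not true that all triples as in the problem obey a power law. -/
theorem result :
    (Infinite F2 ∧ cayley.Connected ∧ IsKernel cayley ker ∧ IsAut cayley ker Lft ∧
      IsTransitive Lft ∧ IsUnimodular Lft ∧ IsInfinitelyAccessible cayley ker Lft) ∧
    (∀ p : ℝ, 0 ≤ p → p < 1 / 2 → ∀ x : F2,
      expectedVisits cayley ker p x ≤ ENNReal.ofReal (2 - Real.log (1 - 2 * p))) ∧
    (∀ x : F2, Tendsto
      (fun p : ℝ => (expectedVisits cayley ker p x).toReal / Real.log (1 / (1 / 2 - p)))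
      (𝓝[<] (1 / 2)) (𝓝 1)) ∧
    (∀ (x : F2) (γ : ℝ), 0 < γ → Tendsto
      (fun p : ℝ => (expectedVisits cayley ker p x).toReal * (1 / 2 - p) ^ γ)
      (𝓝[<] (1 / 2)) (𝓝 0)) ∧
    ¬ (∀ (V : Type) [MeasurableSpace V] [DiscreteMeasurableSpace V] (G : SimpleGraph V)
      [G.LocallyFinite] (K : V → V → ℝ) (Γ : Subgroup (Equiv.Perm V)),
      Infinite V → G.Connected → IsKernel G K → IsAut G K Γ → IsTransitive Γ → IsUnimodular Γ →
      IsInfinitelyAccessible G K Γ → HasPowerLaw G K) := by
  have hinf : Infinite F2 := inferInstance
  refine ⟨⟨hinf, connected, isKernel, isAut, isTransitive, isUnimodular, isInfinitelyAccessible⟩,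
    fun p h0 h1 x => visits_le h0 h1 x, tendsto_ratio, fun x γ hγ => tendsto_zero x hγ, ?_⟩
  intro H
  obtain ⟨γ, C, hγ, hC, h⟩ := H F2 cayley ker Lft hinf connected isKernel isAut isTransitive
    isUnimodular isInfinitelyAccessible
  exact hC.ne' (tendsto_nhds_unique (h 1) (tendsto_zero 1 hγ))

end Pool.Agent.Results.MP_971c94_pr.LogarithmicVisits
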